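import Pool.Agent.Helper92.AH.Defs

set_option autoImplicit false

namespace Pool.Agent.Helper92.AH

theorem sumu_inj (p : ℕ) [Fact p.Prime] {E : Type} [CommRing E] {x y : E}
    (h : WittVector.teichmuller p x = WittVector.teichmuller p y) : x = y := by
  have h2 := congrArg (fun z : WittVector p E => z.coeff 0) h
  simpa [WittVector.teichmuller_coeff_zero] using h2

theorem sumu_units {E R : Type} [Field E] [Fintype E] [DecidableEq E] [CommRing R] (F : E → R) (h0 : F 0 = 0) :
    ∑ z : E, F z = ∑ g : Eˣ, F (g : E) := by
  rw [← Finset.sum_erase_add Finset.univ F (Finset.mem_univ 0), h0, add_zero]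
  symm
  refine Finset.sum_bij (fun (g : Eˣ) _ => (g : E)) ?_ ?_ ?_ ?_
  · intro g _
    simp
  · intro g _ g' _ h
    exact Units.ext h
  · intro z hz
    have hz0 : z ≠ 0 := by simpa using hz
    exact ⟨Units.mk0 z hz0, Finset.mem_univ _, rfl⟩
  · intro g _
    rfl

theorem st_SUMU : ST_SUMU := by
  intro p _ E _ _ _ u
  classical
  by_cases hu : u = 0
  · subst hu
    simp [Finset.card_univ]
  rw [if_neg hu]
  rw [sumu_units (fun z : E => WittVector.teichmuller p z ^ u) (by
    simp [hu])]
  let f : Eˣ →* WittVector p E :=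
    { toFun := fun g => WittVector.teichmuller p (g : E) ^ u
      map_one' := by simp
      map_mul' := by intro a b; simp [mul_pow] }
  have hf : (∑ g : Eˣ, WittVector.teichmuller p (g : E) ^ u) = ∑ g : Eˣ, f g := rfl
  rw [hf, sum_hom_units f]
  have hiff : f = 1 ↔ (Fintype.card E - 1) ∣ u := by
    rw [← FiniteField.forall_pow_eq_one_iff E u]
    constructor
    · intro h g
      have h1 : f g = 1 := by rw [h]; rfl
      have h2 : WittVector.teichmuller p ((g : E) ^ u) = WittVector.teichmuller p 1 := by
        rw [map_pow, map_one]; exact h1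
      exact Units.ext (by
        rw [Units.val_pow_eq_pow_val, Units.val_one]
        exact sumu_inj p h2)
    · intro h
      ext g : 1
      have h1 := congrArg (fun z : Eˣ => (z : E)) (h g)
      have h2 : (g : E) ^ u = 1 := by simpa using h1
      change WittVector.teichmuller p (g : E) ^ u = 1
      rw [← map_pow, h2, map_one]
  by_cases hd : (Fintype.card E - 1) ∣ u
  · rw [if_pos hd, if_pos (hiff.2 hd)]
    rw [Fintype.card_units, Nat.cast_sub (Fintype.card_pos), Nat.cast_one]
  · rw [if_neg hd, if_neg (fun h => hd (hiff.1 h))]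
    simp

end Pool.Agent.Helper92.AH
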